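import Mathlib
import Pool.Agent.H29.FDimDefs
import Pool.Agent.H29.FDim

set_option autoImplicit false

namespace Pool.Agent.Results.MP_4df60b_co.Upper

open Pool.Agent.H29.FDim

theorem result : (∀ k n : ℕ, 1 ≤ k → k + 2 ≤ n →
      fdim (CG k n) ≤ ((k : ℝ) + 1) ^ (k + 1) / (k : ℝ) ^ k) ∧
    ∃ k : ℕ, 1 ≤ k ∧ ∃ ε : ℝ, 0 < ε ∧ ∀ n : ℕ, k + 2 ≤ n → fdim (CG k n) ≤ 2 ^ (k + 1) - ε := by
  refine ⟨main, 2, by norm_num, 5 / 4, by norm_num, fun n hn => ?_⟩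
  exact (main 2 n (by norm_num) hn).trans (by norm_num)

end Pool.Agent.Results.MP_4df60b_co.Upper
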